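import Pool.Agent.H14.NT.St

/-!
# Module G of project NT: the step

`step_of` derives `step` from the statements of modules D, E, F, which it takes as hypotheses.
-/

set_option autoImplicit false

namespace Pool.Agent.H35.NT

open Monoid

/-- the statement of module D -/
def DblStmt : Prop := ∀ {D B : Type} [Group D] [Group B] (ρ δ : D →* B)
    (_ : Function.Injective ρ)
    (_ : Function.Injective δ) (_ : Maln ρ.range) (_ : Maln δ.range),
    ∃ (M : Type) (_ : Group M) (r d : B →* M), Function.Injective r ∧ Function.Injective d ∧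
      Maln r.range ∧ Maln d.range ∧ (∀ z, r (ρ z) = d (δ z)) ∧
      (∀ x b, d x = r b → ∃ z, x = δ z ∧ b = ρ z) ∧
      (∀ x y h h', x ∉ δ.range → y ∉ δ.range → (d x)⁻¹ * r h * d y = r h' →
        ∃ w v, h = ρ w ∧ h' = ρ v ∧ x⁻¹ * δ w * y = δ v) ∧
      (∀ (V : Type) (_ : Group V) (gr gd : B →* V), (∀ z, gr (ρ z) = gd (δ z)) →
        ∃ ν : M →* V, (∀ b, ν (r b) = gr b) ∧ ∀ b, ν (d b) = gd b)

/-- the statement of module E -/
def BstepStmt : Prop := ∀ {A H : Type} [Group A] [Group H] {J : Type} [Nonempty J] (ι : A →* H)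
    (α : J → A →* H) (_ : Function.Injective ι) (_ : ∀ j, Function.Injective (α j))
    (_ : Maln ι.range) (_ : ∀ j, Maln (α j).range),
    ∃ (B : Type) (_ : Group B) (κ : H →* B) (κ' : J → H →* B), Function.Injective κ ∧
      (∀ j, Function.Injective (κ' j)) ∧ (∀ j a, κ (ι a) = κ' j (α j a)) ∧ Maln κ.range ∧
      (∀ j, Maln (κ' j).range) ∧ Maln (κ.comp ι).range ∧
      (∀ j h h', κ h = κ' j h' → ∃ a, h = ι a ∧ h' = α j a) ∧
      (∀ j j', j ≠ j' → ∀ h h', κ' j h = κ' j' h' → ∃ a, h = α j a ∧ h' = α j' a) ∧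
      (∀ (V : Type) (_ : Group V) (g : H →* V) (g' : J → H →* V),
        (∀ j a, g (ι a) = g' j (α j a)) →
        ∃ ν : B →* V, (∀ h, ν (κ h) = g h) ∧ ∀ j h, ν (κ' j h) = g' j h)

/-- the statement of module F -/
def FstepStmt : Prop := ∀ {B : Type} [Group B] {I : Type} (M : Bool → I → Type)
    [∀ s i, Group (M s i)]
    (r d : ∀ s i, B →* M s i) (D : Subgroup B) (c : B) (i1 i2 i3 : I) (_ : i1 ≠ i2)
    (_ : i2 ≠ i3) (_ : i1 ≠ i3)
    (_ : ∀ s i, Function.Injective (r s i)) (_ : ∀ s i, Function.Injective (d s i))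
    (_ : ∀ s i, Maln (r s i).range) (_ : ∀ s i, Maln (d s i).range)
    (_ : ∀ s x, x ∉ D → d s i1 x ∉ (r s i1).range)
    (_ : ∀ s x, x ∉ D → d s i2 x ∉ (r s i2).range)
    (_ : ∀ s x, x ∉ D → d s i3 x ∉ (r s i3).range)
    (_ : ∀ s x y, x ∉ D → y ∉ D → ∀ h h1 h2 h3 : B,
      (d s i1 x)⁻¹ * r s i1 h * d s i1 y = r s i1 h1 →
      (d s i2 x)⁻¹ * r s i2 h1 * d s i2 y = r s i2 h2 →
      (d s i3 x)⁻¹ * r s i3 h2 * d s i3 y = r s i3 h3 → x = y ∧ h = 1)
    (_ : ∀ s x y, x ∉ D → y ∉ D → ∀ h h1 h2 h3 : B,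
      d s i3 x * r s i3 h * (d s i3 y)⁻¹ = r s i3 h1 →
      d s i2 x * r s i2 h1 * (d s i2 y)⁻¹ = r s i2 h2 →
      d s i1 x * r s i1 h2 * (d s i1 y)⁻¹ = r s i1 h3 → x = y ∧ h = 1),
    ∃ (H : Type) (_ : Group H) (ι : B →* H) (f : ∀ s i, M s i →* H),
      Function.Injective ι ∧ (∀ s i, Function.Injective (f s i)) ∧
      (∀ s i b, f s i (r s i b) = ι b) ∧ Maln ι.range ∧
      (∀ s i, Maln ((f s i).comp (d s i)).range) ∧
      (∀ s i i', i ≠ i' → ∀ a a', f s i a = f s i' a' → ∃ b, a = r s i b ∧ a' = r s i' b) ∧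
      (∀ x, x ∉ D →
        (f true i1 (d true i1 x) * f true i2 (d true i2 x) * f true i3 (d true i3 x)) ^ 2 =
        ι c * (f false i1 (d false i1 x) * f false i2 (d false i2 x) *
          f false i3 (d false i3 x)) ^ 2) ∧
      (∀ (V : Type) (_ : Group V) (g0 : B →* V) (g : ∀ s i, M s i →* V),
        (∀ s i b, g s i (r s i b) = g0 b) →
        (∀ x, x ∉ D →
          (g true i1 (d true i1 x) * g true i2 (d true i2 x) * g true i3 (d true i3 x)) ^ 2 =
          g0 c * (g false i1 (d false i1 x) * g false i2 (d false i2 x) *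
            g false i3 (d false i3 x)) ^ 2) →
        ∃ ν : H →* V, (∀ s i a, ν (f s i a) = g s i a) ∧ ∀ b, ν (ι b) = g0 b)

theorem bne_aux {l l' : Bool} (h : ¬ l' = l) : l' = !l := by
  cases l <;> cases l' <;> simp_all

/-- one step, law `l` is imposed, the homomorphisms of the other law become onto `S.H` -/
theorem step_of (dbl : DblStmt) (bstep : BstepStmt) (fstep : FstepStmt)
    {V : Type} [CommGroup V] (hV : ∀ v : V, v ^ 2 = 1)
    (τ : Bool → Bool → Fin 3 → V ≃* V) (l : Bool) (S : St V τ) :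
    ∃ (S' : St V τ) (κ : S.H →* S'.A), Function.Injective κ ∧
      (∀ l s k a, S'.α l s k (κ (S.ι a)) = S'.ι (κ (S.α l s k a))) ∧
      S'.ι (κ S.c) = S'.c ∧ (∀ h, S'.ν (S'.ι (κ h)) = S.ν h) ∧
      (∀ s k (h : S.H), ∃ z : S'.A, S'.α (!l) s k z = S'.ι (κ h)) := by
  classical
  -- the B-step
  obtain ⟨B, gB, κ, κ', κ_inj, κ'_inj, hκ, κ_maln, κ'_maln, D_maln, hκκ', hκ'κ', hBV⟩ :=
    bstep (A := S.A) (H := S.H) (J := Bool × Fin 3) S.ι (fun j => S.α (!l) j.1 j.2) S.ι_inj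
      (fun j => S.α_inj _ _ _) S.ι_maln (fun j => S.α_maln _ _ _)
  -- the partial automorphisms of `B`
  -- domain of the active law
  have key : ∀ (s : Bool) (i : Bool × Fin 3),
      ∃ (Dm : Type) (_ : Group Dm) (ρ δ : Dm →* B), Function.Injective ρ ∧ Function.Injective δ ∧
        Maln ρ.range ∧ Maln δ.range ∧
        (i.1 = l → ∃ e : S.A ≃* Dm, (∀ a, ρ (e a) = κ (S.α l s i.2 a)) ∧
          (∀ a, δ (e a) = κ (S.ι a))) ∧
        (i.1 = !l → ∃ e : S.H ≃* Dm, (∀ h, ρ (e h) = κ h) ∧ (∀ h, δ (e h) = κ' (s, i.2) h)) := by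
    intro s i
    by_cases hi : i.1 = l
    · refine ⟨S.A, inferInstance, κ.comp (S.α l s i.2), κ.comp S.ι, κ_inj.comp (S.α_inj _ _ _),
        κ_inj.comp S.ι_inj, ?_, D_maln, fun _ => ⟨MulEquiv.refl _, fun a => rfl, fun a => rfl⟩,
        fun h => ?_⟩
      · -- malnormality of the image of a malnormal subgroup
        rintro g d ⟨z, rfl⟩ hd ⟨w, hw⟩
        have hg : g ∈ κ.range := by
          apply κ_maln g _ ⟨_, rfl⟩ hd
          exact ⟨_, hw⟩
        obtain ⟨g', rfl⟩ := hg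
        have h1 : g' ∈ (S.α l s i.2).range := by
          apply S.α_maln l s i.2 g' (S.α l s i.2 z) ⟨z, rfl⟩
          · intro h
            apply hd
            simp [h]
          · refine ⟨w, ?_⟩
            apply κ_inj
            simpa using hw
        obtain ⟨a, rfl⟩ := h1
        exact ⟨a, rfl⟩
      · rw [hi] at h
        cases l <;> simp at h
    · refine ⟨S.H, inferInstance, κ, κ' (s, i.2), κ_inj, κ'_inj _, κ_maln, κ'_maln _,
        fun h => absurd h hi, fun _ => ⟨MulEquiv.refl _, fun a => rfl, fun a => rfl⟩⟩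
  choose Dm gDm ρ δ ρ_inj δ_inj ρ_maln δ_maln e1 e2 using key
  have hdbl := fun s i => dbl (D := Dm s i) (B := B) (ρ s i) (δ s i) (ρ_inj s i) (δ_inj s i)
    (ρ_maln s i) (δ_maln s i)
  choose M gM r d r_inj d_inj r_maln d_maln hrd hdr hclaim hMV using hdbl
  -- reformulations for the two laws
  have rd1 : ∀ s k a, r s (l, k) (κ (S.α l s k a)) = d s (l, k) (κ (S.ι a)) := by
    intro s k a
    obtain ⟨e, h1, h2⟩ := e1 s (l, k) rfl
    rw [← h2, ← hrd, h1]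
  have rd2 : ∀ s k h, r s (!l, k) (κ h) = d s (!l, k) (κ' (s, k) h) := by
    intro s k h
    obtain ⟨e, h1, h2⟩ := e2 s (!l, k) rfl
    rw [← h2, ← hrd, h1]
  have dr1 : ∀ s k x b, d s (l, k) x = r s (l, k) b →
      ∃ a, x = κ (S.ι a) ∧ b = κ (S.α l s k a) := by
    intro s k x b h
    obtain ⟨z, h3, h4⟩ := hdr s (l, k) x b h
    obtain ⟨e, h1, h2⟩ := e1 s (l, k) rfl
    obtain ⟨a, rfl⟩ := e.surjective z
    exact ⟨a, by rw [h3, h2], by rw [h4, h1]⟩
  have dr2 : ∀ s k x b, d s (!l, k) x = r s (!l, k) b →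
      ∃ h, x = κ' (s, k) h ∧ b = κ h := by
    intro s k x b h
    obtain ⟨z, h3, h4⟩ := hdr s (!l, k) x b h
    obtain ⟨e, h1, h2⟩ := e2 s (!l, k) rfl
    obtain ⟨a, rfl⟩ := e.surjective z
    exact ⟨a, by rw [h3, h2], by rw [h4, h1]⟩
  have range1 : ∀ s k x, x ∈ (δ s (l, k)).range ↔ x ∈ (κ.comp S.ι).range := by
    intro s k x
    obtain ⟨e, h1, h2⟩ := e1 s (l, k) rfl
    constructor
    · rintro ⟨z, rfl⟩
      obtain ⟨a, rfl⟩ := e.surjective z
      exact ⟨a, (h2 a).symm⟩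
    · rintro ⟨a, rfl⟩
      exact ⟨e a, h2 a⟩
  have claim1 : ∀ s k x y h h', x ∉ (κ.comp S.ι).range → y ∉ (κ.comp S.ι).range →
      (d s (l, k) x)⁻¹ * r s (l, k) h * d s (l, k) y = r s (l, k) h' →
      ∃ w v, h = κ (S.α l s k w) ∧ h' = κ (S.α l s k v) ∧ x⁻¹ * κ (S.ι w) * y = κ (S.ι v) := by
    intro s k x y h h' hx hy hh
    obtain ⟨w, v, h3, h4, h5⟩ := hclaim s (l, k) x y h h' (by rwa [range1]) (by rwa [range1]) hh
    obtain ⟨e, h1, h2⟩ := e1 s (l, k) rfl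
    obtain ⟨a, rfl⟩ := e.surjective w
    obtain ⟨b, rfl⟩ := e.surjective v
    exact ⟨a, b, by rw [h3, h1], by rw [h4, h1], by rw [← h2, ← h2, h5]⟩
  have n : ∀ s k x, x ∉ (κ.comp S.ι).range → d s (l, k) x ∉ (r s (l, k)).range := by
    rintro s k x hx ⟨b, hb⟩
    obtain ⟨a, h1, -⟩ := dr1 s k x b hb.symm
    exact hx ⟨a, h1.symm⟩
  -- comparison of the exponents
  have cmp : ∀ x y, x ∉ (κ.comp S.ι).range → ∀ w v w' v', x⁻¹ * κ (S.ι w) * y = κ (S.ι v) →
      x⁻¹ * κ (S.ι w') * y = κ (S.ι v') → w = w' ∧ v = v' := by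
    intro x y hx w v w' v' h1 h2
    have h3 : x⁻¹ * κ (S.ι (w * w'⁻¹)) * x = κ (S.ι (v * v'⁻¹)) := by
      have : x⁻¹ * κ (S.ι (w * w'⁻¹)) * x = (x⁻¹ * κ (S.ι w) * y) * (x⁻¹ * κ (S.ι w') * y)⁻¹ := by
        simp [mul_assoc]
      rw [this, h1, h2]
      simp
    have h4 : κ (S.ι (w * w'⁻¹)) = 1 := by
      by_contra hne
      exact hx (D_maln x _ ⟨_, rfl⟩ hne ⟨_, h3.symm⟩)
    have h5 : w = w' := by
      have := S.ι_inj (κ_inj (h4.trans (by simp : (1 : B) = κ (S.ι 1))))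
      exact mul_inv_eq_one.1 this
    refine ⟨h5, ?_⟩
    subst h5
    exact S.ι_inj (κ_inj (h1.symm.trans h2))
  obtain ⟨H, gH, ι, f, ι_inj, f_inj, hf, ι_maln, fd_maln, hff, hlaw, hHV⟩ :=
    fstep (B := B) (I := Bool × Fin 3) M r d (κ.comp S.ι).range (κ S.c) (l, 0) (l, 1) (l, 2)
      (by simp) (by simp) (by simp) r_inj d_inj r_maln d_maln (fun s => n s 0) (fun s => n s 1)
      (fun s => n s 2)
      (by
        intro s x y hx hy h h1 h2 h3 a1 a2 a3
        obtain ⟨w1, v1, b1, c1, k1⟩ := claim1 s 0 x y _ _ hx hy a1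
        obtain ⟨w2, v2, b2, c2, k2⟩ := claim1 s 1 x y _ _ hx hy a2
        obtain ⟨w3, v3, b3, c3, k3⟩ := claim1 s 2 x y _ _ hx hy a3
        obtain ⟨rfl, rfl⟩ := cmp x y hx _ _ _ _ k1 k2
        obtain ⟨rfl, rfl⟩ := cmp x y hx _ _ _ _ k1 k3
        obtain ⟨rfl, rfl⟩ := S.fpf l s w1 v1 (κ_inj (c1.symm.trans b2))
          (κ_inj (c2.symm.trans b3))
        simp only [map_one, mul_one] at k1 b1
        exact ⟨(inv_mul_eq_one.1 k1), b1⟩)
      (by
        intro s x y hx hy h h1 h2 h3 a1 a2 a3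
        have hx' : x⁻¹ ∉ (κ.comp S.ι).range := fun hh => hx (by simpa using inv_mem hh)
        have hy' : y⁻¹ ∉ (κ.comp S.ι).range := fun hh => hy (by simpa using inv_mem hh)
        obtain ⟨w1, v1, b1, c1, k1⟩ := claim1 s 2 x⁻¹ y⁻¹ _ _ hx' hy' (by simpa using a1)
        obtain ⟨w2, v2, b2, c2, k2⟩ := claim1 s 1 x⁻¹ y⁻¹ _ _ hx' hy' (by simpa using a2)
        obtain ⟨w3, v3, b3, c3, k3⟩ := claim1 s 0 x⁻¹ y⁻¹ _ _ hx' hy' (by simpa using a3)
        obtain ⟨rfl, rfl⟩ := cmp _ _ hx' _ _ _ _ k1 k2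
        obtain ⟨rfl, rfl⟩ := cmp _ _ hx' _ _ _ _ k1 k3
        obtain ⟨rfl, rfl⟩ := S.fpf l s v1 w1 (κ_inj (b3.symm.trans c2))
          (κ_inj (b2.symm.trans c1))
        simp only [map_one, mul_one, inv_inv] at k1 b1
        exact ⟨(mul_inv_eq_one.1 k1), b1⟩)
  -- the homomorphism `ν`
  obtain ⟨νB, νB1, νB2⟩ := hBV V inferInstance S.ν
    (fun j => ((τ (!l) j.1 j.2).symm.toMonoidHom).comp S.ν) (by
      intro j a
      simp [S.ν_α])
  have hM : ∀ s i, ∃ ν : M s i →* V, (∀ b, ν (r s i b) = νB b) ∧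
      ∀ b, ν (d s i b) = τ i.1 s i.2 (νB b) := by
    intro s i
    obtain ⟨ν, h1, h2⟩ := hMV s i V inferInstance νB ((τ i.1 s i.2).toMonoidHom.comp νB) (by
      intro z
      obtain ⟨l', k⟩ := i
      by_cases hl : l' = l
      · subst hl
        obtain ⟨e, h1, h2⟩ := e1 s (l', k) rfl
        obtain ⟨a, rfl⟩ := e.surjective z
        simp only [h1, h2, MonoidHom.comp_apply, MulEquiv.toMonoidHom_eq_coe, MonoidHom.coe_coe,
          νB1, S.ν_α]
      · have hl' : l' = !l := bne_aux hl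
        subst hl'
        obtain ⟨e, h1, h2⟩ := e2 s (!l, k) rfl
        obtain ⟨a, rfl⟩ := e.surjective z
        simp only [h1, h2, MonoidHom.comp_apply, MulEquiv.toMonoidHom_eq_coe, MonoidHom.coe_coe,
          νB1, νB2, MulEquiv.apply_symm_apply])
    exact ⟨ν, h1, fun b => by simp [h2]⟩
  choose νM νM1 νM2 using hM
  obtain ⟨ν', ν'1, ν'2⟩ := hHV V inferInstance νB νM νM1 (by
    intro x hx
    rw [hV, hV, νB1, S.ν_c, one_mul])
  refine ⟨{ A := B, H := H, gA := gB, gH := gH, ι := ι,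
            α := fun l' s k => (f s (l', k)).comp (d s (l', k)), ν := ν', c := ι (κ S.c),
            ι_inj := ι_inj
            α_inj := fun l' s k => (f_inj _ _).comp (d_inj _ _)
            ι_maln := ι_maln
            α_maln := fun l' s k => fd_maln _ _
            fpf := ?_
            law := ?_
            ν_α := ?_
            ν_c := ?_ }, κ, κ_inj, ?_, rfl, ?_, ?_⟩
  · -- fpf
    intro l' s w v hwv hvw
    obtain ⟨b, hb1, hb2⟩ := hff s (l', 0) (l', 1) (by simp) _ _ hwv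
    obtain ⟨b', hb3, hb4⟩ := hff s (l', 1) (l', 2) (by simp) _ _ hvw
    by_cases hl : l' = l
    · subst hl
      obtain ⟨z, hz1, hz2⟩ := dr1 _ _ _ _ hb1
      obtain ⟨z', hz3, hz4⟩ := dr1 _ _ _ _ hb2
      obtain ⟨y, hy1, hy2⟩ := dr1 _ _ _ _ hb3
      obtain ⟨y', hy3, hy4⟩ := dr1 _ _ _ _ hb4
      obtain rfl : z = y := S.ι_inj (κ_inj (hz1.symm.trans hy1))
      obtain rfl : z' = y' := S.ι_inj (κ_inj (hz3.symm.trans hy3))
      obtain ⟨rfl, rfl⟩ := S.fpf _ s z' z (κ_inj (hz2.symm.trans hz4))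
        (κ_inj (hy2.symm.trans hy4))
      simp [hz1, hz3]
    · have hl' : l' = !l := bne_aux hl
      subst hl'
      obtain ⟨z, hz1, hz2⟩ := dr2 _ _ _ _ hb1
      obtain ⟨z', hz3, hz4⟩ := dr2 _ _ _ _ hb2
      obtain ⟨y, hy1, hy2⟩ := dr2 _ _ _ _ hb3
      obtain ⟨y', hy3, hy4⟩ := dr2 _ _ _ _ hb4
      obtain rfl : z = z' := κ_inj (hz2.symm.trans hz4)
      obtain rfl : y = y' := κ_inj (hy2.symm.trans hy4)
      obtain ⟨a, ha1, ha2⟩ := hκ'κ' (s, 0) (s, 1) (by simp) z y (hz1.symm.trans hy1)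
      obtain ⟨a', ha3, ha4⟩ := hκ'κ' (s, 1) (s, 2) (by simp) z y (hz3.symm.trans hy3)
      obtain ⟨rfl, rfl⟩ := S.fpf (!l) s a' a (ha1.symm.trans ha3) (ha2.symm.trans ha4)
      simp [hz1, hz3, ha1]
  · -- law
    intro x hx
    by_cases hxD : x ∈ (κ.comp S.ι).range
    · obtain ⟨a, rfl⟩ := hxD
      obtain ⟨l', hl'⟩ := S.law a (by rintro rfl; simp at hx)
      refine ⟨l', ?_⟩
      have hα : ∀ s k, f s (l', k) (d s (l', k) (κ (S.ι a))) = ι (κ (S.α l' s k a)) := by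
        intro s k
        by_cases hl : l' = l
        · subst hl
          rw [← rd1, hf]
        · have hl' : l' = !l := bne_aux hl
          subst hl'
          rw [hκ (s, k) a, ← rd2, hf]
      simp only [MonoidHom.comp_apply, hα]
      simpa using congrArg (fun z => ι (κ z)) hl'
    · exact ⟨l, hlaw x hxD⟩
  · -- ν_α
    intro l' s k b
    simp [ν'1, ν'2, νM2]
  · -- ν_c
    simp [ν'2, νB1, S.ν_c]
  · -- compatibility
    intro l' s k a
    show f s (l', k) (d s (l', k) (κ (S.ι a))) = ι (κ (S.α l' s k a))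
    by_cases hl : l' = l
    · subst hl
      rw [← rd1, hf]
    · have hl' : l' = !l := bne_aux hl
      subst hl'
      rw [hκ (s, k) a, ← rd2, hf]
  · intro h
    show ν' (ι (κ h)) = S.ν h
    rw [ν'2, νB1]
  · intro s k h
    refine ⟨κ' (s, k) h, ?_⟩
    show f s (!l, k) (d s (!l, k) (κ' (s, k) h)) = ι (κ h)
    rw [← rd2, hf]

end Pool.Agent.H35.NT
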