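import Pool.Agent.H35.NT.Defs

/-!
# States for project NT (the statement of modules G and H of helper35's plan)
-/

set_option autoImplicit false

namespace Pool.Agent.H35.NT

open Monoid

/-- A state: a group `H` with a malnormal subgroup `A` and twelve injective homomorphisms
`α l s k : A → H` (`l` the law, `s` the side, `k` the position). -/
structure St (V : Type) [CommGroup V] (τ : Bool → Bool → Fin 3 → V ≃* V) where
  A : Type
  H : Type
  gA : Group A
  gH : Group H
  ι : A →* H
  α : Bool → Bool → Fin 3 → A →* H
  ν : H →* V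
  c : H
  ι_inj : Function.Injective ι
  α_inj : ∀ l s k, Function.Injective (α l s k)
  ι_maln : Maln ι.range
  α_maln : ∀ l s k, Maln (α l s k).range
  fpf : ∀ l s (w v : A), α l s 0 v = α l s 1 w → α l s 1 v = α l s 2 w → w = 1 ∧ v = 1
  law : ∀ x : A, x ≠ 1 → ∃ l, (α l true 0 x * α l true 1 x * α l true 2 x) ^ 2 =
    c * (α l false 0 x * α l false 1 x * α l false 2 x) ^ 2
  ν_α : ∀ l s k a, ν (α l s k a) = τ l s k (ν (ι a))
  ν_c : ν c = 1

attribute [instance] St.gA St.gH

end Pool.Agent.H35.NT
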