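import Pool.Agent.H14.NT.G
import Pool.Agent.H13.NT.D
import Pool.Agent.H13.NT.E
import Pool.Agent.H13.NT.F

/-!
# Project NT: the step, from modules D, E, F, G
-/

set_option autoImplicit false

namespace Pool.Agent.H35.NT

open Monoid

/-- one step, law `l` is imposed, the homomorphisms of the other law become onto `S.H` -/
theorem step {V : Type} [CommGroup V] (hV : ∀ v : V, v ^ 2 = 1)
    (τ : Bool → Bool → Fin 3 → V ≃* V) (l : Bool) (S : St V τ) :
    ∃ (S' : St V τ) (κ : S.H →* S'.A), Function.Injective κ ∧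
      (∀ l s k a, S'.α l s k (κ (S.ι a)) = S'.ι (κ (S.α l s k a))) ∧
      S'.ι (κ S.c) = S'.c ∧ (∀ h, S'.ν (S'.ι (κ h)) = S.ν h) ∧
      (∀ s k (h : S.H), ∃ z : S'.A, S'.α (!l) s k z = S'.ι (κ h)) :=
  step_of (@dbl) (@bstep) (@fstep) hV τ l S

end Pool.Agent.H35.NT
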